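import Mathlib
import Pool.Agent.Q166.SpinKostka2

/-!
# MP_2c9e21_co: spin Kostka polynomials need not be palindromic

`K^-_{(4,2),(3,2,1)}(t) = 8 + 12 t + 4 t^2`.  The proof uses the defining identity in three
variables: after multiplication by `v_3(t) ∏_{i<j} (x_i - x_j)` one compares the coefficients of
the monomials `x^{ν + (2,1,0)}` for `ν = (6), (5,1), (4,2), (4,1,1), (3,3), (3,2,1)`.
-/

set_option autoImplicit false

namespace Pool.Agent.Results.MP_2c9e21_co.NotPalindromic

open Q166.SpinKostka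

theorem not_pal (p : R) (hp : p = 8 + 12 * Polynomial.X + 4 * Polynomial.X ^ 2) (m : ℤ) :
    LaurentPolynomial.T m * LaurentPolynomial.invert (Polynomial.toLaurent p) ≠
      Polynomial.toLaurent p := by
  have hL : Polynomial.toLaurent p = LaurentPolynomial.C 8 * LaurentPolynomial.T 0 +
      LaurentPolynomial.C 12 * LaurentPolynomial.T 1 +
      LaurentPolynomial.C 4 * LaurentPolynomial.T 2 := by
    rw [hp, show (8 + 12 * Polynomial.X + 4 * Polynomial.X ^ 2 : R) =
      Polynomial.C 8 * Polynomial.X ^ 0 + Polynomial.C 12 * Polynomial.X ^ 1 +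
        Polynomial.C 4 * Polynomial.X ^ 2 by
      rw [show (Polynomial.C 8 : R) = 8 by rfl, show (Polynomial.C 12 : R) = 12 by rfl,
        show (Polynomial.C 4 : R) = 4 by rfl]; ring]
    rw [map_add, map_add, Polynomial.toLaurent_C_mul_X_pow, Polynomial.toLaurent_C_mul_X_pow,
      Polynomial.toLaurent_C_mul_X_pow]
    rfl
  intro h
  rw [hL] at h
  simp only [map_add, map_mul, LaurentPolynomial.invert_C, LaurentPolynomial.invert_T] at h
  have h2 : LaurentPolynomial.C (8 : ℤ) * LaurentPolynomial.T (m - 0) +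
      LaurentPolynomial.C 12 * LaurentPolynomial.T (m - 1) +
      LaurentPolynomial.C 4 * LaurentPolynomial.T (m - 2) =
      LaurentPolynomial.C 8 * LaurentPolynomial.T 0 +
      LaurentPolynomial.C 12 * LaurentPolynomial.T 1 +
      LaurentPolynomial.C 4 * LaurentPolynomial.T 2 := by
    rw [← h, LaurentPolynomial.T_sub, LaurentPolynomial.T_sub, LaurentPolynomial.T_sub]
    ring
  rw [← LaurentPolynomial.single_eq_C_mul_T, ← LaurentPolynomial.single_eq_C_mul_T,
    ← LaurentPolynomial.single_eq_C_mul_T, ← LaurentPolynomial.single_eq_C_mul_T,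
    ← LaurentPolynomial.single_eq_C_mul_T, ← LaurentPolynomial.single_eq_C_mul_T] at h2
  have c : ∀ n : ℤ, (if m - 0 = n then (8 : ℤ) else 0) + (if m - 1 = n then 12 else 0) +
      (if m - 2 = n then 4 else 0) = (if 0 = n then (8 : ℤ) else 0) + (if 1 = n then 12 else 0) +
      (if 2 = n then 4 else 0) := by
    intro n
    have := congrArg (fun f : LaurentPolynomial ℤ => f.coeff n) h2
    simpa only [AddMonoidAlgebra.coeff_add, Finsupp.add_apply, 
      AddMonoidAlgebra.coeff_single, Finsupp.single_apply] using this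
  have c0 := c 0
  have hm : m = 0 := by
    rw [if_pos rfl, if_neg (by norm_num : ¬ (1 : ℤ) = 0), if_neg (by norm_num : ¬ (2 : ℤ) = 0)]
      at c0
    by_contra hm
    rw [if_neg (by omega : ¬ m - 0 = 0)] at c0
    split_ifs at c0 <;> omega
  subst hm
  have c1 := c 1
  norm_num at c1

/-- Let `K_{ξμ}(t)` be the spin Kostka polynomials, that is
`Q_ξ(x) = Σ_μ K_{ξμ}(t) P_μ(x;t)`.  Then `K_{(4,2),(3,2,1)}(t) = 8 + 12 t + 4 t^2`, and there is no
integer `m` with `t^m K_{(4,2),(3,2,1)}(1/t) = K_{(4,2),(3,2,1)}(t)`. -/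
theorem result (K : List ℕ → List ℕ → R) (hK : IsSpinKostka K) :
    IsStrict [4, 2] ∧ IsPart [3, 2, 1] ∧
    K [4, 2] [3, 2, 1] = 8 + 12 * Polynomial.X + 4 * Polynomial.X ^ 2 ∧
    ∀ m : ℤ, LaurentPolynomial.T m *
      LaurentPolynomial.invert (Polynomial.toLaurent (K [4, 2] [3, 2, 1])) ≠
        Polynomial.toLaurent (K [4, 2] [3, 2, 1]) := by
  have h1 : IsStrict [4, 2] := by simp [IsStrict]
  have h2 : IsPart [3, 2, 1] := by simp [IsPart]
  have h3 := solve (K [4, 2]) (hK [4, 2] h1 3)
  exact ⟨h1, h2, h3, not_pal _ h3⟩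

end Pool.Agent.Results.MP_2c9e21_co.NotPalindromic
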